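import Mathlib
import Pool.Agent.Lib.helper2.DRC

set_option autoImplicit false

namespace Pool.Agent.Results.MP_cecf76_co.Growth

open Finset Pool.Agent.Lib.H2DRC

/-- `f(n,m,c,ε)`: the largest `s` such that every sequence of `m` subsets of an `n`-set, each of
size `> c n`, has an `ε`-intersecting index set of size `s`. -/
noncomputable def fval (n m : ℕ) (c ε : ℝ) : ℕ :=
  sSup {s : ℕ | ∀ A : Fin m → Finset (Fin n), (∀ k, c * n < ((A k).card : ℝ)) →
    ∃ I : Finset (Fin m), I.card = s ∧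
      ∀ i ∈ I, ∀ j ∈ I, i ≠ j → ε * n < ((A i ∩ A j).card : ℝ)}

theorem result (c ε : ℝ) (r n m : ℕ) (hc : 0 < c) (hc' : c ≤ 1 / 2) (hr : 1 ≤ r)
    (hε : 0 < ε) (hεc : ε ≤ c ^ (r + 1)) (hn : 1 ≤ n) (hm : 1 ≤ m) :
    c / (4 * r) * m * ((min m (2 ^ n) : ℕ) : ℝ) ^ (-(1 / (r : ℝ))) ≤ fval n m c ε ∧
    (fval n m c ε : ℝ) ≤ 16 * m * ((min m (2 ^ n) : ℕ) : ℝ) ^ (-(ε ^ 2 / 8)) := by
  set S := {s : ℕ | ∀ A : Fin m → Finset (Fin n), (∀ k, c * n < ((A k).card : ℝ)) →
    ∃ I : Finset (Fin m), I.card = s ∧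
      ∀ i ∈ I, ∀ j ∈ I, i ≠ j → ε * n < ((A i ∩ A j).card : ℝ)} with hS
  have hc1 : c < 1 := by linarith
  have hε2 : ε ≤ 1 / 2 := by
    have : c ^ (r + 1) ≤ c := pow_le_of_le_one hc.le hc1.le (by omega)
    linarith
  obtain ⟨A0, hA0, hI0⟩ := construct n m hn hm ε hε.le hε2
  have hA0' : ∀ k, c * n < ((A0 k).card : ℝ) := by
    intro k
    have h1 : (n : ℝ) < 2 * (A0 k).card := by exact_mod_cast hA0 k
    have h2 : (0 : ℝ) ≤ n := by positivity
    nlinarith
  have hbdd : BddAbove S := by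
    refine ⟨m, fun s hs => ?_⟩
    obtain ⟨I, hI, -⟩ := hs A0 hA0'
    rw [← hI]
    simpa using card_le_univ I
  have hne : S.Nonempty := ⟨0, fun A _ => ⟨∅, rfl, by simp⟩⟩
  set N : ℝ := ((min m (2 ^ n) : ℕ) : ℝ) with hN
  have hNpos : 0 < N := by
    rw [hN]
    exact_mod_cast lt_min (by omega) (by positivity)
  have hrpos : (0 : ℝ) < r := by exact_mod_cast hr
  constructor
  · have hmem : ⌈c / (4 * r) * m * N ^ (-(1 / (r : ℝ)))⌉₊ ∈ S := by
      intro A hA
      obtain ⟨K, hK, col, h1, h2⟩ := colour_min n m r hr A c ε hc hc1 hε.le hεc hA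
      rw [← hN] at hK
      have hKpos : 0 < K := lt_of_le_of_lt (Nat.zero_le _) (h1 ⟨0, hm⟩)
      have hex : ∃ y ∈ range K, (m : ℝ) / K ≤
          (((univ : Finset (Fin m)).filter (fun i => col i = y)).card : ℝ) := by
        apply exists_le_of_sum_le (nonempty_range_iff.mpr hKpos.ne')
        have := card_eq_sum_card_fiberwise (s := (univ : Finset (Fin m))) (t := range K)
          (f := col) (fun i _ => mem_range.mpr (h1 i))
        rw [card_univ, Fintype.card_fin] at this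
        rw [sum_const, card_range, nsmul_eq_mul, ← Nat.cast_sum, ← this]
        have : (K : ℝ) ≠ 0 := by exact_mod_cast hKpos.ne'
        field_simp
        rfl
      obtain ⟨y, -, hy⟩ := hex
      have hle : ⌈c / (4 * r) * m * N ^ (-(1 / (r : ℝ)))⌉₊ ≤
          ((univ : Finset (Fin m)).filter (fun i => col i = y)).card := by
        rw [Nat.ceil_le]
        refine le_trans ?_ hy
        have hKr : (0 : ℝ) < K := by exact_mod_cast hKpos
        rw [le_div_iff₀ hKr, Real.rpow_neg hNpos.le]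
        have hp : 0 < N ^ (1 / (r : ℝ)) := by positivity
        calc c / (4 * r) * m * (N ^ (1 / (r : ℝ)))⁻¹ * K
            ≤ c / (4 * r) * m * (N ^ (1 / (r : ℝ)))⁻¹ * (4 * r / c * N ^ (1 / (r : ℝ))) := by
              gcongr
          _ = m := by field_simp
      obtain ⟨I, hI, hIc⟩ := exists_subset_card_eq hle
      refine ⟨I, hIc, fun i hi j hj _ => h2 i j ?_⟩
      rw [(mem_filter.mp (hI hi)).2, (mem_filter.mp (hI hj)).2]
    have := le_csSup hbdd hmem
    exact (Nat.le_ceil _).trans (by exact_mod_cast this)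
  · obtain ⟨I, hI, hI'⟩ := Nat.sSup_mem hne hbdd A0 hA0'
    have := hI0 I (fun i hi j hj hij => (hI' i hi j hj hij).le)
    rw [hI] at this
    exact this

end Pool.Agent.Results.MP_cecf76_co.Growth
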